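import Pool.Agent.Helper39_AddCubes.Cert

set_option autoImplicit false
set_option maxRecDepth 100000

namespace Pool.Agent.Helper39_AddCubes

/-- The numbers below 60. -/
def K60 : List ℕ := [0, 1, 2, 3, 4, 5, 6, 7, 8, 9, 10, 11, 12, 13, 14, 15, 16, 17, 18, 19, 20, 21, 22, 23, 24, 25, 26, 27, 28, 29, 30, 31, 32, 33, 34, 35, 36, 37, 38, 39, 40, 41, 42, 43, 44, 45, 46, 47, 48, 49, 50, 51, 52, 53, 54, 55, 56, 57, 58, 59]

/-- Blocks over `[0, 1, 3, 4]` of length 60:
`0`: 044010334043431100300400100114401010030101003010010014001310
`1`: 044010334043431100300400100114401010030101003010044130443343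
`3`: 044010334043431443340413301434143343113441403344330014001310
`4`: 044010334043431443340413301434143344013441403344344330443343
-/
def baseD : ℕ → ℕ
  | 0 => 0x4b12c4a11c46118461084110441100401003f0fc3c0f03c0ec3b0e83a0dc370dc360d8350d4310b42c0ac2b0ac2a0a82a098260982308c23088210781a05c1304c0f03009024080200400000
  | 1 => 0x611785a15c541404c1304912044100401003f0fc3c0f03c0ec3b0e83a0dc370dc360d8350d4310b42c0ac2b0ac2a0a82a098260982308c23088210781a05c1304c0f03009024080200400000
  | 3 => 0x8d2348c22488220882108320c832007d1e4751c86f1bc6b1a8661885f1785d1685614c501304b11c441003f0fc3c0e4380d0340c02d0a826088210781a05c1304c0f03009024080200400000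
  | _ => 0xa32809c264962488e2388b220842007d1e4751c86f1bc6b1a8661885f1785e1685614c501304b11c441003f0fc3c0e4380d0340c02d0a826088210781a05c1304c0f03009024080200400000

def baseB : List ℕ := [0, 13, 14, 27, 40, 100, 101, 113, 129, 145, 158, 166, 179, 186, 192, 199, 203, 204, 212, 231, 235, 265, 266, 278, 291, 293, 294, 322, 364, 366, 396, 397, 405, 418, 437, 484, 487, 488, 491, 504, 517, 519, 532, 575, 590, 603, 605, 616, 618, 619, 632, 649, 650, 677, 681, 689, 690, 740, 753, 768, 770, 811, 825, 828, 841, 842, 874, 903, 914, 915, 930, 942, 943, 955, 956, 968, 988, 1001, 1003, 1004, 1006, 1014, 1018, 1023, 1029, 1041, 1042, 1079, 1096, 1107, 1115, 1127, 1128, 1141, 1168, 1207, 1220, 1233, 1234, 1256, 1257, 1270, 1271, 1272, 1289, 1302, 1307]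

theorem baseC : Cert (tab baseD) [0, 1, 3, 4] K60 60 75 22 1320 13 60 37 baseB
    0x840020001c003000006001000800000000100000020018008080100008000000006002084405a00100001001800c004000c0080000004000000060012000800000000050002001000000000000602200000060001000d002800400080000000001000a001000990000000000020000400203000000050000000000400000068004006000000088000101881040800404002000200020030000000000000010008006001 where
  rng := by decide +kernel
  words := by decide +kernel
  hom := by decide +kernel
  cds := by decide +kernel
  msk := by decide +kernel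
  ap := by decide +kernel
  inj := by decide +kernel

end Pool.Agent.Helper39_AddCubes
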