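import Mathlib

/-!
Additive cubes: words, partial sums and uniform block substitutions.

A block substitution is given by the table `T s k` of the sums of the first `k` letters of the
block of the letter `s`.
-/

set_option autoImplicit false

namespace Pool.Agent.Helper39_AddCubes

/-- Sum of the first `n` letters of the infinite word `w`. -/
def ps (w : ℕ → ℕ) (n : ℕ) : ℕ := ∑ k ∈ Finset.range n, w k

theorem ps_zero (w : ℕ → ℕ) : ps w 0 = 0 := by simp [ps]

theorem ps_succ (w : ℕ → ℕ) (n : ℕ) : ps w (n + 1) = ps w n + w n := by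
  simp [ps, Finset.sum_range_succ]

theorem ps_add (w : ℕ → ℕ) (n k : ℕ) :
    ps w (n + k) = ps w n + ∑ r ∈ Finset.range k, w (n + r) := by
  induction k with
  | zero => simp
  | succ k ih => rw [← Nat.add_assoc, ps_succ, ih, Finset.sum_range_succ, Nat.add_assoc]

/-- The three blocks of length `N` starting at position `p` have equal sums. -/
def Cube (w : ℕ → ℕ) (p N : ℕ) : Prop :=
  ps w p + ps w (p + 2 * N) = 2 * ps w (p + N) ∧
    ps w (p + N) + ps w (p + 3 * N) = 2 * ps w (p + 2 * N)

theorem cube_iff (w : ℕ → ℕ) (p N : ℕ) :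
    Cube w p N ↔
      ((∑ k ∈ Finset.range N, w (p + k)) = (∑ k ∈ Finset.range N, w (p + N + k)) ∧
        (∑ k ∈ Finset.range N, w (p + N + k)) = (∑ k ∈ Finset.range N, w (p + 2 * N + k))) := by
  have h1 := ps_add w p N
  have h2 := ps_add w (p + N) N
  have h3 := ps_add w (p + 2 * N) N
  have e2 : p + N + N = p + 2 * N := by ring
  have e3 : p + 2 * N + N = p + 3 * N := by ring
  rw [e2] at h2
  rw [e3] at h3
  unfold Cube
  omega

/-- Reversing the alphabet `v ↦ j - v` does not change the cubes. -/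
theorem cube_reverse (w : ℕ → ℕ) (j : ℕ) (hw : ∀ n, w n ≤ j) (p N : ℕ) :
    Cube (fun n => j - w n) p N ↔ Cube w p N := by
  have key : ∀ n, ps (fun n => j - w n) n + ps w n = j * n := by
    intro n
    induction n with
    | zero => simp [ps_zero]
    | succ n ih =>
      rw [ps_succ, ps_succ, Nat.mul_succ, ← ih]
      have := hw n
      omega
  have k0 := key p
  have k1 := key (p + N)
  have k2 := key (p + 2 * N)
  have k3 := key (p + 3 * N)
  have e1 : j * p + j * (p + 2 * N) = 2 * (j * (p + N)) := by ring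
  have e2 : j * (p + N) + j * (p + 3 * N) = 2 * (j * (p + 2 * N)) := by ring
  unfold Cube
  omega

/-- The infinite word obtained from `x` by replacing the letter `s` by its block of length `L`,
whose partial sums are `T s 0, …, T s L`. -/
def blk (T : ℕ → ℕ → ℕ) (L : ℕ) (x : ℕ → ℕ) (n : ℕ) : ℕ :=
  T (x (n / L)) (n % L + 1) - T (x (n / L)) (n % L)

theorem blk_eq (T : ℕ → ℕ → ℕ) {L : ℕ} (hL : 0 < L) (x : ℕ → ℕ) (q k : ℕ) (hk : k < L) :
    blk T L x (L * q + k) = T (x q) (k + 1) - T (x q) k := by
  unfold blk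
  have h1 : (L * q + k) / L = q := by
    rw [Nat.mul_add_div hL, Nat.div_eq_of_lt hk, Nat.add_zero]
  have h2 : (L * q + k) % L = k := by
    rw [Nat.mul_add_mod, Nat.mod_eq_of_lt hk]
  rw [h1, h2]

/-- `T` is a table of partial sums of blocks of length `L`, the block of `s` having sum
`e + c * s`. -/
structure Tab (T : ℕ → ℕ → ℕ) (L e c : ℕ) (s : ℕ) : Prop where
  zero : T s 0 = 0
  mono : ∀ k, k < L → T s k ≤ T s (k + 1)
  last : T s L = e + c * s

theorem ps_blk_aux (T : ℕ → ℕ → ℕ) {L : ℕ} (hL : 0 < L) (e c : ℕ) (x : ℕ → ℕ)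
    (hT : ∀ n, Tab T L e c (x n)) (q k : ℕ) (hk : k ≤ L) :
    ps (blk T L x) (L * q + k) = ps (blk T L x) (L * q) + T (x q) k := by
  induction k with
  | zero => simp [(hT q).zero]
  | succ k ih =>
    rw [← Nat.add_assoc, ps_succ, ih (Nat.le_of_succ_le hk), blk_eq T hL x q k hk]
    have := (hT q).mono k hk
    omega

/-- Letter sums of a block word, if the block of `s` has length `L` and sum `e + c * s`. -/
theorem ps_blk (T : ℕ → ℕ → ℕ) {L : ℕ} (hL : 0 < L) (e c : ℕ) (x : ℕ → ℕ)
    (hT : ∀ n, Tab T L e c (x n)) (q k : ℕ) (hk : k ≤ L) :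
    ps (blk T L x) (L * q + k) = e * q + c * ps x q + T (x q) k := by
  have key : ∀ q, ps (blk T L x) (L * q) = e * q + c * ps x q := by
    intro q
    induction q with
    | zero => simp [ps_zero]
    | succ q ih =>
      have h := ps_blk_aux T hL e c x hT q L le_rfl
      rw [(hT q).last, ih] at h
      rw [Nat.mul_succ, h, ps_succ]
      ring
  rw [ps_blk_aux T hL e c x hT q k hk, key]

end Pool.Agent.Helper39_AddCubes
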