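import Pool.Agent.Helper39_AddCubes.Basic

/-!
The finite certificate: a block substitution on the letters `0, 1, 3, 4` whose set of partial
sums, read in the cyclic group `ℤ/m`, contains no non-constant four-term arithmetic progression.
-/

set_option autoImplicit false

namespace Pool.Agent.Helper39_AddCubes

/-- The base alphabet. -/
def S : List ℕ := [0, 1, 3, 4]

/-- `l.all p`, by plain recursion (fast to evaluate in the kernel). -/
noncomputable def allL (l : List ℕ) (p : ℕ → Bool) : Bool :=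
  List.rec (motive := fun _ => Bool) true (fun a _ ih => and (p a) ih) l

theorem allL_eq_true {l : List ℕ} {p : ℕ → Bool} (h : allL l p = true) {a : ℕ} (ha : a ∈ l) :
    p a = true := by
  induction l with
  | nil => simp at ha
  | cons b l ih =>
    have h' : (p b && allL l p) = true := h
    rw [Bool.and_eq_true] at h'
    rcases List.mem_cons.mp ha with rfl | h1
    · exact h'.1
    · exact ih h'.2 h1

/-- Bit `g` of `M`. -/
def tb (M g : ℕ) : Bool := Nat.beq (Nat.land (Nat.shiftRight M g) 1) 1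

/-- The number with binary digits at the places in `B`. -/
noncomputable def mask (B : List ℕ) : ℕ :=
  List.rec (motive := fun _ => ℕ) 0 (fun g _ ih => Nat.lor (Nat.shiftLeft 1 g) ih) B

theorem tb_eq_testBit (M g : ℕ) : tb M g = M.testBit g := by
  unfold tb
  have h1 : Nat.land (Nat.shiftRight M g) 1 = (M >>> g) &&& 1 := rfl
  rw [h1, Nat.and_one_is_mod, Nat.testBit_eq_decide_div_mod_eq, Nat.shiftRight_eq_div_pow]
  have h2 : ∀ a b : ℕ, Nat.beq a b = decide (a = b) := by
    intro a b
    rw [Bool.eq_iff_iff, decide_eq_true_iff, Nat.beq_eq]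
  rw [h2]

theorem mem_of_tb_mask {B : List ℕ} {g : ℕ} (h : tb (mask B) g = true) : g ∈ B := by
  rw [tb_eq_testBit] at h
  induction B with
  | nil =>
    have h0 : mask [] = 0 := rfl
    rw [h0] at h
    simp at h
  | cons b l ih =>
    have h0 : mask (b :: l) = (1 <<< b) ||| mask l := rfl
    rw [h0, Nat.testBit_or, Bool.or_eq_true] at h
    rcases h with h | h
    · rw [Nat.one_shiftLeft, Nat.testBit_two_pow] at h
      simp at h
      simp [h]
    · exact List.mem_cons_of_mem _ (ih h)

/-- Table of partial sums stored in binary, ten digits for each entry. -/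
def tab (D : ℕ → ℕ) (s k : ℕ) : ℕ := Nat.land (Nat.shiftRight (D s) (Nat.mul 10 k)) 1023

/-- The code of a cut point. -/
def code (T : ℕ → ℕ → ℕ) (m α β s k : ℕ) : ℕ :=
  Nat.mod (Nat.add (Nat.mul α k) (Nat.mul β (T s k))) m

/-- Tables are tables of words over the alphabet `A` with the right sums. -/
noncomputable def okWords (T : ℕ → ℕ → ℕ) (K : List ℕ) (L e c : ℕ) (A : List ℕ) : Bool :=
  allL S fun s => and (Nat.beq (T s 0) 0) (and (Nat.beq (T s L) (Nat.add e (Nat.mul c s)))
    (allL K fun k => and (Nat.ble (T s k) (T s (Nat.add k 1)))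
      (A.contains (Nat.sub (T s (Nat.add k 1)) (T s k)))))

def okHom (L e c m α β γ : ℕ) : Bool :=
  decide (0 < L) && decide (0 < c) && decide (0 < m) && (α * L + β * e) % m == 0 &&
    (β * c) % m == 0 && m % L == 0 && (γ * α) % L == 1 % L && (γ * β) % L == 0

noncomputable def okCodes (T : ℕ → ℕ → ℕ) (K : List ℕ) (m α β : ℕ) (M : ℕ) : Bool :=
  allL S fun s => allL K fun k => tb M (code T m α β s k)

noncomputable def okAP (B : List ℕ) (M m : ℕ) : Bool :=
  allL B fun g1 => allL B fun g2 =>
    or (Nat.beq g1 g2) (not (and (tb M (Nat.mod (Nat.add (Nat.mul 2 g2) (Nat.sub m g1)) m))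
      (tb M (Nat.mod (Nat.add (Nat.mul 3 g2) (Nat.mul 2 (Nat.sub m g1))) m))))

noncomputable def okInj (T : ℕ → ℕ → ℕ) (K : List ℕ) (c m α β : ℕ) : Bool :=
  allL K fun k => allL S fun s => allL S fun s' =>
    or (not (Nat.beq (code T m α β s k) (code T m α β s' k)))
      (or (Nat.beq (T s k) (T s' k))
        (Nat.beq (Nat.add (T s' k) (Nat.mul c s)) (Nat.add (T s k) (Nat.mul c s'))))

/-- The whole certificate. -/
structure Cert (T : ℕ → ℕ → ℕ) (A K : List ℕ) (L e c m α β γ : ℕ) (B : List ℕ) (M : ℕ) :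
    Prop where
  rng : K = List.range L
  words : okWords T K L e c A = true
  hom : okHom L e c m α β γ = true
  cds : okCodes T K m α β M = true
  msk : Nat.beq (mask B) M = true
  ap : okAP B M m = true
  inj : okInj T K c m α β = true

variable {T : ℕ → ℕ → ℕ} {A K : List ℕ} {L e c m α β γ : ℕ} {B : List ℕ} {M : ℕ}

theorem Cert.mem_K (h : Cert T A K L e c m α β γ B M) {k : ℕ} (hk : k < L) : k ∈ K := by
  rw [h.rng]; exact List.mem_range.mpr hk

theorem Cert.tabs (h : Cert T A K L e c m α β γ B M) {s : ℕ} (hs : s ∈ S) :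
    Tab T L e c s ∧ ∀ k, k < L → T s (k + 1) - T s k ∈ A := by
  have h1 := allL_eq_true h.words hs
  rw [Bool.and_eq_true, Bool.and_eq_true] at h1
  obtain ⟨a1, a2, a3⟩ := h1
  have b1 : T s 0 = 0 := Nat.eq_of_beq_eq_true a1
  have b2 : T s L = e + c * s := Nat.eq_of_beq_eq_true a2
  have b3 : ∀ k, k < L → T s k ≤ T s (k + 1) ∧ T s (k + 1) - T s k ∈ A := by
    intro k hk
    have h2 := allL_eq_true a3 (h.mem_K hk)
    rw [Bool.and_eq_true] at h2
    refine ⟨Nat.le_of_ble_eq_true h2.1, ?_⟩
    have h3 := h2.2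
    rw [List.contains_iff_mem] at h3
    exact h3
  exact ⟨⟨b1, fun k hk => (b3 k hk).1, b2⟩, fun k hk => (b3 k hk).2⟩

theorem Cert.hom' (h : Cert T A K L e c m α β γ B M) :
    0 < L ∧ 0 < c ∧ 0 < m ∧ (α * L + β * e) % m = 0 ∧ (β * c) % m = 0 ∧ m % L = 0 ∧
      (γ * α) % L = 1 % L ∧ (γ * β) % L = 0 := by
  have h1 := h.hom
  unfold okHom at h1
  simp only [Bool.and_eq_true, beq_iff_eq, decide_eq_true_eq] at h1
  obtain ⟨⟨⟨⟨⟨⟨⟨a1, a2⟩, a3⟩, a4⟩, a5⟩, a6⟩, a7⟩, a8⟩ := h1
  exact ⟨a1, a2, a3, a4, a5, a6, a7, a8⟩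

theorem Cert.cds' (h : Cert T A K L e c m α β γ B M) {s : ℕ} (hs : s ∈ S) {k : ℕ} (hk : k < L) :
    (α * k + β * T s k) % m ∈ B ∧ tb M ((α * k + β * T s k) % m) = true := by
  have h1 := allL_eq_true (allL_eq_true h.cds hs) (h.mem_K hk)
  have h2 : tb M ((α * k + β * T s k) % m) = true := h1
  have h3 : mask B = M := Nat.eq_of_beq_eq_true h.msk
  refine ⟨?_, h2⟩
  rw [← h3] at h2
  exact mem_of_tb_mask h2

theorem Cert.ap' (h : Cert T A K L e c m α β γ B M) {g1 g2 : ℕ} (h1 : g1 ∈ B) (h2 : g2 ∈ B)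
    (h3 : tb M ((2 * g2 + (m - g1)) % m) = true)
    (h4 : tb M ((3 * g2 + 2 * (m - g1)) % m) = true) : g1 = g2 := by
  have h0 := allL_eq_true (allL_eq_true h.ap h1) h2
  have h5 : (Nat.beq g1 g2 || !(tb M ((2 * g2 + (m - g1)) % m) &&
    tb M ((3 * g2 + 2 * (m - g1)) % m))) = true := h0
  rw [h3, h4] at h5
  simp at h5
  exact h5

theorem Cert.inj' (h : Cert T A K L e c m α β γ B M) {s s' : ℕ} (hs : s ∈ S) (hs' : s' ∈ S)
    {k : ℕ} (hk : k < L) (heq : (α * k + β * T s k) % m = (α * k + β * T s' k) % m) :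
    T s k = T s' k ∨ T s' k + c * s = T s k + c * s' := by
  have h0 := allL_eq_true (allL_eq_true (allL_eq_true h.inj (h.mem_K hk)) hs) hs'
  have h5 : (!(Nat.beq ((α * k + β * T s k) % m) ((α * k + β * T s' k) % m)) ||
    (Nat.beq (T s k) (T s' k) || Nat.beq (T s' k + c * s) (T s k + c * s'))) = true := h0
  rw [heq] at h5
  simp at h5
  exact h5

/-- Four numbers, each pair of which is equal or in a fixed affine relation, are either all equal
or all in the affine relation. -/
theorem four_dichotomy {t a : Fin 4 → ℤ}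
    (h : ∀ i j, a i = a j ∨ a j + t i = a i + t j) :
    (∀ i j, a i = a j) ∨ (∀ i j, a j + t i = a i + t j) := by
  by_cases hall : ∀ i j, a i = a j
  · exact Or.inl hall
  · right
    push Not at hall
    obtain ⟨u, v, huv⟩ := hall
    have huv' : a v + t u = a u + t v := (h u v).resolve_left huv
    have key : ∀ i, a i + t u = a u + t i := by
      intro i
      rcases h u i with h1 | h1
      · rcases h v i with h2 | h2
        · exact absurd (h1.trans h2.symm) huv
        · linarith
      · exact h1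
    intro i j
    have h1 := key i
    have h2 := key j
    linarith

/-- If the four cut points of a cube lie at the same place `k` of their blocks and the partial sums
there are pairwise equal or pairwise in the affine relation, we find a cube in the original word. -/
theorem finish {T : ℕ → ℕ → ℕ} {L e c : ℕ} (hL : 0 < L) (hcpos : 0 < c) (x : ℕ → ℕ)
    (hT : ∀ n, Tab T L e c (x n)) {q k N' : ℕ} (hkL : k < L)
    (hpair : ∀ i j : Fin 4,
      T (x (q + (i : ℕ) * N')) k = T (x (q + (j : ℕ) * N')) k ∨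
      T (x (q + (j : ℕ) * N')) k + c * x (q + (i : ℕ) * N') =
        T (x (q + (i : ℕ) * N')) k + c * x (q + (j : ℕ) * N'))
    (hc : Cube (blk T L x) (L * q + k) (L * N')) : ∃ q', Cube x q' N' := by
  set P : ℕ → ℕ := ps (blk T L x) with hP
  have hPi : ∀ i : ℕ, P (L * q + k + i * (L * N')) =
      e * (q + i * N') + c * ps x (q + i * N') + T (x (q + i * N')) k := by
    intro i
    have : L * q + k + i * (L * N') = L * (q + i * N') + k := by ring
    rw [this]
    exact ps_blk T hL e c x hT (q + i * N') k hkL.le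
  have hpairz : ∀ i j : Fin 4,
      ((T (x (q + (i : ℕ) * N')) k : ℕ) : ℤ) = (T (x (q + (j : ℕ) * N')) k : ℕ) ∨
      ((T (x (q + (j : ℕ) * N')) k : ℕ) : ℤ) + (c : ℤ) * (x (q + (i : ℕ) * N') : ℕ) =
        (T (x (q + (i : ℕ) * N')) k : ℕ) + (c : ℤ) * (x (q + (j : ℕ) * N') : ℕ) := by
    intro i j
    rcases hpair i j with h1 | h1
    · left; exact_mod_cast h1
    · right; exact_mod_cast h1
  have hdich := four_dichotomy (t := fun i : Fin 4 => (c : ℤ) * (x (q + (i : ℕ) * N') : ℕ))
    (a := fun i : Fin 4 => ((T (x (q + (i : ℕ) * N')) k : ℕ) : ℤ)) hpairz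
  have P0 := hPi 0
  have P1 := hPi 1
  have P2 := hPi 2
  have P3 := hPi 3
  simp only [Nat.zero_mul, Nat.one_mul, Nat.add_zero] at P0 P1
  have hcz : (c : ℤ) ≠ 0 := by exact_mod_cast hcpos.ne'
  have hc1 : P (L * q + k) + P (L * q + k + 2 * (L * N')) = 2 * P (L * q + k + L * N') := hc.1
  have hc2 : P (L * q + k + L * N') + P (L * q + k + 3 * (L * N')) =
      2 * P (L * q + k + 2 * (L * N')) := hc.2
  rw [P0, P1, P2] at hc1
  rw [P1, P2, P3] at hc2
  have hc1z : (((e * q + c * ps x q + T (x q) k) + (e * (q + 2 * N') + c * ps x (q + 2 * N') +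
      T (x (q + 2 * N')) k) : ℕ) : ℤ) = ((2 * (e * (q + N') + c * ps x (q + N') +
      T (x (q + N')) k) : ℕ) : ℤ) := by exact_mod_cast hc1
  have hc2z : (((e * (q + N') + c * ps x (q + N') + T (x (q + N')) k) + (e * (q + 3 * N') +
      c * ps x (q + 3 * N') + T (x (q + 3 * N')) k) : ℕ) : ℤ) = ((2 * (e * (q + 2 * N') +
      c * ps x (q + 2 * N') + T (x (q + 2 * N')) k) : ℕ) : ℤ) := by exact_mod_cast hc2
  push_cast at hc1z hc2z
  rcases hdich with hd | hd
  · refine ⟨q, ?_⟩
    have d01 := hd 0 1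
    have d02 := hd 0 2
    have d03 := hd 0 3
    simp at d01 d02 d03
    have z1 : (c : ℤ) * ((ps x q : ℤ) + ps x (q + 2 * N') - 2 * ps x (q + N')) = 0 := by
      rw [← d01, ← d02] at hc1z
      linarith
    have z2 : (c : ℤ) * ((ps x (q + N') : ℤ) + ps x (q + 3 * N') - 2 * ps x (q + 2 * N')) = 0 := by
      rw [← d01, ← d02, ← d03] at hc2z
      linarith
    have z1' := (mul_eq_zero.mp z1).resolve_left hcz
    have z2' := (mul_eq_zero.mp z2).resolve_left hcz
    constructor
    · have : (ps x q : ℤ) + ps x (q + 2 * N') = 2 * ps x (q + N') := by linarith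
      exact_mod_cast this
    · have : (ps x (q + N') : ℤ) + ps x (q + 3 * N') = 2 * ps x (q + 2 * N') := by linarith
      exact_mod_cast this
  · refine ⟨q + 1, ?_⟩
    have d01 := hd 0 1
    have d02 := hd 0 2
    have d03 := hd 0 3
    simp at d01 d02 d03
    have X0 : (ps x (q + 1) : ℤ) = ps x q + x q := by rw [ps_succ]; push_cast; ring
    have X1 : (ps x (q + 1 + N') : ℤ) = ps x (q + N') + x (q + N') := by
      have : q + 1 + N' = (q + N') + 1 := by ring
      rw [this, ps_succ]; push_cast; ring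
    have X2 : (ps x (q + 1 + 2 * N') : ℤ) = ps x (q + 2 * N') + x (q + 2 * N') := by
      have : q + 1 + 2 * N' = (q + 2 * N') + 1 := by ring
      rw [this, ps_succ]; push_cast; ring
    have X3 : (ps x (q + 1 + 3 * N') : ℤ) = ps x (q + 3 * N') + x (q + 3 * N') := by
      have : q + 1 + 3 * N' = (q + 3 * N') + 1 := by ring
      rw [this, ps_succ]; push_cast; ring
    have z1 : (c : ℤ) * ((ps x (q + 1) : ℤ) + ps x (q + 1 + 2 * N') - 2 * ps x (q + 1 + N')) = 0 := by
      rw [X0, X1, X2]
      linarith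
    have z2 : (c : ℤ) * ((ps x (q + 1 + N') : ℤ) + ps x (q + 1 + 3 * N')
        - 2 * ps x (q + 1 + 2 * N')) = 0 := by
      rw [X1, X2, X3]
      linarith
    have z1' := (mul_eq_zero.mp z1).resolve_left hcz
    have z2' := (mul_eq_zero.mp z2).resolve_left hcz
    constructor
    · have : (ps x (q + 1) : ℤ) + ps x (q + 1 + 2 * N') = 2 * ps x (q + 1 + N') := by linarith
      exact_mod_cast this
    · have : (ps x (q + 1 + N') : ℤ) + ps x (q + 1 + 3 * N') = 2 * ps x (q + 1 + 2 * N') := by
        linarith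
      exact_mod_cast this

/-- A cube in the block word comes from a cube in the original word. -/
theorem Cert.descend (h : Cert T A K L e c m α β γ B M) (x : ℕ → ℕ) (hx : ∀ n, x n ∈ S)
    {p N : ℕ} (hc : Cube (blk T L x) p N) : ∃ q N', N = L * N' ∧ Cube x q N' := by
  obtain ⟨hL, hcpos, hm, hr1, hr2, hLm, hg1, hg2⟩ := h.hom'
  have hLm' : L ∣ m := Nat.dvd_of_mod_eq_zero hLm
  have hT : ∀ n, Tab T L e c (x n) := fun n => (h.tabs (hx n)).1
  set P : ℕ → ℕ := ps (blk T L x) with hP
  -- value of `P` at an arbitrary position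
  have hPn : ∀ n, P n = e * (n / L) + c * ps x (n / L) + T (x (n / L)) (n % L) := by
    intro n
    have h1 := ps_blk T hL e c x hT (n / L) (n % L) (Nat.mod_lt n hL).le
    rw [Nat.div_add_mod] at h1
    exact h1
  -- the code of a position
  have hcode : ∀ n, (α * n + β * P n) ≡ (α * (n % L) + β * T (x (n / L)) (n % L)) [MOD m] := by
    intro n
    have e1 : α * n + β * P n = (n / L) * (α * L + β * e) + ps x (n / L) * (β * c) +
        (α * (n % L) + β * T (x (n / L)) (n % L)) := by
      rw [hPn n]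
      have := Nat.div_add_mod n L
      nth_rewrite 1 [← this]
      ring
    have e2 : α * L + β * e ≡ 0 [MOD m] := hr1
    have e3 : β * c ≡ 0 [MOD m] := hr2
    rw [e1]
    have e4 := ((e2.mul_left (n / L)).add (e3.mul_left (ps x (n / L)))).add_right
      (α * (n % L) + β * T (x (n / L)) (n % L))
    simpa using e4
  set g : ℕ → ℕ := fun n => (α * n + β * P n) % m with hg
  have hgn : ∀ n, g n = (α * (n % L) + β * T (x (n / L)) (n % L)) % m := fun n => hcode n
  have hglt : ∀ n, g n < m := fun n => Nat.mod_lt _ hm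
  have hgB : ∀ n, g n ∈ B ∧ tb M (g n) = true := by
    intro n
    rw [hgn n]
    exact h.cds' (hx _) (Nat.mod_lt n hL)
  -- second differences of the codes vanish
  have hsum : ∀ n N, P n + P (n + 2 * N) = 2 * P (n + N) →
      g n + g (n + 2 * N) ≡ 2 * g (n + N) [MOD m] := by
    intro n N hn
    have e1 : g n + g (n + 2 * N) ≡
        (α * n + β * P n) + (α * (n + 2 * N) + β * P (n + 2 * N)) [MOD m] :=
      (Nat.mod_modEq _ _).add (Nat.mod_modEq _ _)
    have e2 : 2 * g (n + N) ≡ 2 * (α * (n + N) + β * P (n + N)) [MOD m] :=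
      (Nat.mod_modEq _ _).mul_left 2
    have e3 : (α * n + β * P n) + (α * (n + 2 * N) + β * P (n + 2 * N)) =
        2 * (α * (n + N) + β * P (n + N)) := by
      have : β * P n + β * P (n + 2 * N) = 2 * (β * P (n + N)) := by
        rw [← Nat.mul_add, hn]; ring
      nlinarith [this]
    rw [e3] at e1
    exact e1.trans e2.symm
  have hc1 : P p + P (p + 2 * N) = 2 * P (p + N) := hc.1
  have hc2 : P (p + N) + P (p + 3 * N) = 2 * P (p + 2 * N) := hc.2
  have s1 := hsum p N hc1
  have s2 := hsum (p + N) N (by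
    have t1 : p + N + 2 * N = p + 3 * N := by ring
    have t2 : p + N + N = p + 2 * N := by ring
    rw [t1, t2]; exact hc2)
  have t1 : p + N + 2 * N = p + 3 * N := by ring
  have t2 : p + N + N = p + 2 * N := by ring
  rw [t1, t2] at s2
  -- third and fourth code
  have b3 : (2 * g (p + N) + (m - g p)) % m = g (p + 2 * N) := by
    have u1 : 2 * g (p + N) + (m - g p) ≡ g (p + 2 * N) [MOD m] := by
      have u2 : 2 * g (p + N) + (m - g p) ≡ (g p + g (p + 2 * N)) + (m - g p) [MOD m] :=
        s1.symm.add_right _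
      have u3 : (g p + g (p + 2 * N)) + (m - g p) = g (p + 2 * N) + m := by
        have := hglt p; omega
      rw [u3] at u2
      simpa using u2
    have u4 : (2 * g (p + N) + (m - g p)) % m = g (p + 2 * N) % m := u1
    rw [u4, Nat.mod_eq_of_lt (hglt _)]
  have b4 : (3 * g (p + N) + 2 * (m - g p)) % m = g (p + 3 * N) := by
    have u1 : 2 * g (p + 2 * N) ≡ 2 * (2 * g (p + N) + (m - g p)) [MOD m] := by
      rw [← b3]
      exact (Nat.mod_modEq _ _).mul_left 2
    have u2 : g (p + N) + g (p + 3 * N) ≡ g (p + N) + (3 * g (p + N) + 2 * (m - g p)) [MOD m] := by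
      refine (s2.trans u1).trans ?_
      have : 2 * (2 * g (p + N) + (m - g p)) = g (p + N) + (3 * g (p + N) + 2 * (m - g p)) := by
        ring
      rw [this]
    have u3 := Nat.ModEq.add_left_cancel' _ u2
    have u4 : (3 * g (p + N) + 2 * (m - g p)) % m = g (p + 3 * N) % m := u3.symm
    rw [u4, Nat.mod_eq_of_lt (hglt _)]
  have g12 : g p = g (p + N) := h.ap' (hgB p).1 (hgB (p + N)).1
    (by rw [b3]; exact (hgB _).2) (by rw [b4]; exact (hgB _).2)
  have g13 : g (p + 2 * N) = g (p + N) := by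
    rw [← b3, ← g12]
    have : 2 * g p + (m - g p) = g p + m := by have := hglt p; omega
    rw [this, Nat.add_mod_right, Nat.mod_eq_of_lt (hglt _)]
  have g14 : g (p + 3 * N) = g (p + N) := by
    rw [← b4, ← g12]
    have : 3 * g p + 2 * (m - g p) = g p + m * 2 := by have := hglt p; omega
    rw [this, Nat.add_mul_mod_self_left, Nat.mod_eq_of_lt (hglt _)]
  -- the code determines the position modulo `L`
  have hpos : ∀ n n', g n = g n' → n % L = n' % L := by
    intro n n' hnn
    have v0 : ∀ n, γ * g n ≡ n [MOD L] := by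
      intro n
      have v1 : g n ≡ α * n + β * P n [MOD L] := (Nat.mod_modEq _ m).of_dvd hLm'
      have v2 : γ * g n ≡ (γ * α) * n + (γ * β) * P n [MOD L] := by
        have := v1.mul_left γ
        have e1 : γ * (α * n + β * P n) = (γ * α) * n + (γ * β) * P n := by ring
        rw [e1] at this
        exact this
      have v3 : (γ * α) * n ≡ 1 * n [MOD L] := Nat.ModEq.mul_right n hg1
      have v4 : (γ * β) * P n ≡ 0 * P n [MOD L] := Nat.ModEq.mul_right (P n) hg2
      have v5 := v2.trans (v3.add v4)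
      simpa using v5
    have w1 := v0 n
    rw [hnn] at w1
    exact (w1.symm.trans (v0 n'))
  have hk1 : p % L = (p + N) % L := hpos _ _ g12
  have hLN : L ∣ N := by
    have w : p + 0 ≡ p + N [MOD L] := by rw [Nat.add_zero]; exact hk1
    exact (Nat.modEq_zero_iff_dvd.mp (Nat.ModEq.add_left_cancel' p w).symm)
  obtain ⟨N', rfl⟩ := hLN
  refine ?_
  -- positions
  have hq : ∀ i : ℕ, (p + i * (L * N')) / L = p / L + i * N' := by
    intro i
    have : p + i * (L * N') = p + L * (i * N') := by ring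
    rw [this, Nat.add_mul_div_left _ _ hL]
  have hk : ∀ i : ℕ, (p + i * (L * N')) % L = p % L := by
    intro i
    have : p + i * (L * N') = p + L * (i * N') := by ring
    rw [this, Nat.add_mul_mod_self_left]
  set k := p % L with hkdef
  set q := p / L with hqdef
  have hkL : k < L := Nat.mod_lt _ hL
  have hgi : ∀ i : ℕ, g (p + i * (L * N')) = (α * k + β * T (x (q + i * N')) k) % m := by
    intro i
    rw [hgn, hq, hk]
  have hgall : ∀ i : Fin 4, g (p + (i : ℕ) * (L * N')) = g p := by
    intro i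
    fin_cases i
    · simp
    · simpa using g12.symm
    · simpa using g13.trans g12.symm
    · simpa using g14.trans g12.symm
  have hpair : ∀ i j : Fin 4,
      T (x (q + (i : ℕ) * N')) k = T (x (q + (j : ℕ) * N')) k ∨
      T (x (q + (j : ℕ) * N')) k + c * x (q + (i : ℕ) * N') =
        T (x (q + (i : ℕ) * N')) k + c * x (q + (j : ℕ) * N') := by
    intro i j
    have e1 := hgall i
    have e2 := hgall j
    rw [hgi] at e1 e2
    exact h.inj' (hx (q + (i : ℕ) * N')) (hx (q + (j : ℕ) * N')) hkL (e1.trans e2.symm)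
  have hpq : L * q + k = p := Nat.div_add_mod p L
  obtain ⟨q', hq'⟩ := finish hL hcpos x hT hkL hpair (by rw [hpq]; exact hc)
  exact ⟨q', N', rfl, hq'⟩

end Pool.Agent.Helper39_AddCubes
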