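import Pool.Agent.Helper39_AddCubes.Univ

set_option autoImplicit false
set_option maxRecDepth 100000

namespace Pool.Agent.Helper39_AddCubes

/-- The numbers below 49. -/
def K49 : List ℕ := [0, 1, 2, 3, 4, 5, 6, 7, 8, 9, 10, 11, 12, 13, 14, 15, 16, 17, 18, 19, 20, 21, 22, 23, 24, 25, 26, 27, 28, 29, 30, 31, 32, 33, 34, 35, 36, 37, 38, 39, 40, 41, 42, 43, 44, 45, 46, 47, 48]

/-- Number of letters `b` in the blocks. The blocks are (`a = 0, b = 1, c = 2`)
`0`: 1202202201022010010012200120112011011002001020010
`1`: 1202202201022012110012200120112011011002001020010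
`3`: 1201101102101101100221220120010120011022022122022
`4`: 1201101102101101100221220122110102011022022122022
-/
def uD1 : ℕ → ℕ
  | 0 => 0x380e0340d0340d0340c0300c0300c0300b0280a024080200801c06018060140501405014040100400c0300c0200802008020040100401004010040100400
  | 1 => 0x3c0f0380e0380e0380d0340d0340d0340c02c0b02809024090200701c07018060180601805014050100300c0200802008020040100401004010040100400
  | 3 => 0x441104411044110401004010040100400f0380e0380e0340d0300c0300c02c0b02c0b0280a0280a028090200801c0601805014050100300c020040100400
  | _ => 0x481204812048120441104411044110441003c0f03c0f0380e0340c0300c02c0b02c0b0280a0280a028090200801c0601805014050100300c020040100400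

/-- Number of letters `c` in the blocks. -/
def uD2 : ℕ → ℕ
  | 0 => 0x340d0340d0340c0300c0300c02c0b02c0b02c0b02c0b02c0a0280a02809024090240801c0701c0701c0701c0701c0601405014050100300c020040100000
  | 1 => 0x380e0380e0380d0340d0340d0300c0300c0300c0300c0300b02c0b02c0a0280a0280902008020080200801c0701c0601405014050100300c020040100000
  | 3 => 0x400f0380e0340c0300b0280a0240802008020080200701c0701c0701c0601806014040100300802008020080200802008020040100401004010040100000
  | _ => 0x441003c0f0380d0340c02c0b02809024090240902008020080200801c0601806014040100300802008020080200802008020040100401004010040100000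

def uB : List ℕ := [0, 2, 3, 37, 38, 40, 41, 42, 48, 49, 50, 53, 56, 57, 82, 83, 85, 88, 92, 94, 95, 96, 103, 104, 107, 130, 133, 142, 157, 158, 177, 178, 208, 214, 215, 216, 219, 220, 221, 225, 258, 259, 261, 262, 266, 267, 271, 272, 273, 306, 309, 311, 353, 354, 361, 362, 398, 401, 412, 414, 429, 445, 446, 448, 449, 462, 464, 477, 478, 479, 481, 482, 493, 514, 515, 520, 521, 522, 524, 525, 529, 532, 534, 540, 541, 565, 568, 571, 572, 582, 584, 588, 615, 616, 634, 635, 636]

theorem uC : UCert (tab uD1) (tab uD2) K49 49 13 636 261 2000 uB
    0x1c00018000001140192000003052370c00002006e00140036000200050024000000006060000000000a4000000038c6c0000000239c10000000600006000402400000981d12c0000032707600000000d where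
  pos := by decide +kernel
  rng := by decide +kernel
  w1 := by decide +kernel
  w2 := by decide +kernel
  w3 := by decide +kernel
  cds := by decide +kernel
  bd := by decide +kernel
  msk := by decide +kernel
  ap := by decide +kernel
  inj := by decide +kernel

end Pool.Agent.Helper39_AddCubes
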