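import Pool.Agent.Helper39_AddCubes.Small1
import Pool.Agent.Helper39_AddCubes.Small2
import Pool.Agent.Helper39_AddCubes.Small3
import Pool.Agent.Helper39_AddCubes.Small4
import Pool.Agent.Helper39_AddCubes.UnivData

/-!
Additive cubes are avoidable over `{0, i, j}` for all coprime `0 < i < j` with `j ≥ 6`.
-/

set_option autoImplicit false

namespace Pool.Agent.Helper39_AddCubes

/-- The fixed point of the base substitution, an infinite word over `{0, 1, 3, 4}`. -/
def bw (n : ℕ) : ℕ :=
  if _h : n = 0 then 0
  else tab baseD (bw (n / 60)) (n % 60 + 1) - tab baseD (bw (n / 60)) (n % 60)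
termination_by n
decreasing_by all_goals exact Nat.div_lt_self (Nat.pos_of_ne_zero _h) (by norm_num)

theorem bw_eq : blk (tab baseD) 60 bw = bw := by
  funext n
  by_cases h : n = 0
  · subst h
    have h0 : bw 0 = 0 := by rw [bw]; simp
    unfold blk
    rw [Nat.zero_div, Nat.zero_mod, h0]
    decide +kernel
  · conv_rhs => rw [bw]
    rw [dif_neg h]
    rfl

theorem bw_mem : ∀ n, bw n ∈ S := by
  intro n
  induction n using Nat.strong_induction_on with
  | _ n ih =>
    by_cases h : n = 0
    · subst h
      have h0 : bw 0 = 0 := by rw [bw]; simp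
      rw [h0]; decide
    · have h1 : n / 60 < n := Nat.div_lt_self (Nat.pos_of_ne_zero h) (by norm_num)
      have h2 := (baseC.tabs (ih _ h1)).2 (n % 60) (Nat.mod_lt _ (by norm_num))
      rw [bw, dif_neg h]
      exact h2

/-- The base word contains no additive cube. -/
theorem bw_cubefree : ∀ N, 0 < N → ∀ p, ¬ Cube bw p N := by
  intro N
  induction N using Nat.strong_induction_on with
  | _ N ih =>
    intro hN p hc
    rw [← bw_eq] at hc
    obtain ⟨q, N', hNN, hc'⟩ := baseC.descend bw bw_mem hc
    exact ih N' (by omega) (by omega) q hc'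

/-- `w` is an infinite word over `{0, i, j}` without additive cubes. -/
def Good (i j : ℕ) : Prop :=
  ∃ w : ℕ → ℕ, (∀ n, w n = 0 ∨ w n = i ∨ w n = j) ∧ ∀ N, 0 < N → ∀ p, ¬ Cube w p N

theorem good_of_cert {i j : ℕ} {D : ℕ → ℕ} {L e c m α β γ : ℕ} {K B : List ℕ} {M : ℕ}
    (h : Cert (tab D) [0, i, j] K L e c m α β γ B M) : Good i j := by
  have hL : 0 < L := h.hom'.1
  refine ⟨blk (tab D) L bw, ?_, ?_⟩
  · intro n
    have h2 := (h.tabs (bw_mem (n / L))).2 (n % L) (Nat.mod_lt _ hL)
    simp only [List.mem_cons, List.not_mem_nil, or_false] at h2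
    exact h2
  · intro N hN p hc
    obtain ⟨q, N', hNN, hc'⟩ := h.descend bw bw_mem hc
    have : 0 < N' := by
      rcases Nat.eq_zero_or_pos N' with h0 | h0
      · subst h0; simp at hNN; omega
      · exact h0
    exact bw_cubefree N' this q hc'

theorem good_reverse {i j : ℕ} (hij : i ≤ j) (h : Good i j) : Good (j - i) j := by
  obtain ⟨w, hw, hc⟩ := h
  have hle : ∀ n, w n ≤ j := by
    intro n
    rcases hw n with h | h | h <;> omega
  refine ⟨fun n => j - w n, ?_, ?_⟩
  · intro n
    rcases hw n with h | h | h
    · right; right; simp only; omega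
    · right; left; simp only; omega
    · left; simp only; omega
  · intro N hN p hcube
    exact hc N hN p ((cube_reverse w j hle p N).mp hcube)

theorem good_big {i j : ℕ} (hij : Nat.Coprime i j) (hj : 0 < j) (hbig : 26 ≤ i + j) :
    Good i j := by
  refine ⟨uword (tab uD1) (tab uD2) 49 i j bw, uC.letters bw bw_mem i j, ?_⟩
  intro N hN p hc
  obtain ⟨q, N', hNN, hc'⟩ := uC.descend bw bw_mem hij hj (by omega) hc
  exact bw_cubefree N' (by omega) q hc'

theorem g1_6 : Good 1 6 := good_of_cert p1_6C

theorem g5_6 : Good 5 6 := good_reverse (i := 1) (j := 6) (by norm_num) g1_6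

theorem g3_7 : Good 3 7 := good_of_cert p3_7C

theorem g4_7 : Good 4 7 := good_reverse (i := 3) (j := 7) (by norm_num) g3_7

theorem g2_7 : Good 2 7 := good_of_cert p2_7C

theorem g5_7 : Good 5 7 := good_reverse (i := 2) (j := 7) (by norm_num) g2_7

theorem g1_7 : Good 1 7 := good_of_cert p1_7C

theorem g6_7 : Good 6 7 := good_reverse (i := 1) (j := 7) (by norm_num) g1_7

theorem g3_8 : Good 3 8 := good_of_cert p3_8C

theorem g5_8 : Good 5 8 := good_reverse (i := 3) (j := 8) (by norm_num) g3_8

theorem g1_8 : Good 1 8 := good_of_cert p1_8C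

theorem g7_8 : Good 7 8 := good_reverse (i := 1) (j := 8) (by norm_num) g1_8

theorem g4_9 : Good 4 9 := good_of_cert p4_9C

theorem g5_9 : Good 5 9 := good_reverse (i := 4) (j := 9) (by norm_num) g4_9

theorem g2_9 : Good 2 9 := good_of_cert p2_9C

theorem g7_9 : Good 7 9 := good_reverse (i := 2) (j := 9) (by norm_num) g2_9

theorem g1_9 : Good 1 9 := good_of_cert p1_9C

theorem g8_9 : Good 8 9 := good_reverse (i := 1) (j := 9) (by norm_num) g1_9

theorem g3_10 : Good 3 10 := good_of_cert p3_10C

theorem g7_10 : Good 7 10 := good_reverse (i := 3) (j := 10) (by norm_num) g3_10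

theorem g1_10 : Good 1 10 := good_of_cert p1_10C

theorem g9_10 : Good 9 10 := good_reverse (i := 1) (j := 10) (by norm_num) g1_10

theorem g5_11 : Good 5 11 := good_of_cert p5_11C

theorem g6_11 : Good 6 11 := good_reverse (i := 5) (j := 11) (by norm_num) g5_11

theorem g4_11 : Good 4 11 := good_of_cert p4_11C

theorem g7_11 : Good 7 11 := good_reverse (i := 4) (j := 11) (by norm_num) g4_11

theorem g3_11 : Good 3 11 := good_of_cert p3_11C

theorem g8_11 : Good 8 11 := good_reverse (i := 3) (j := 11) (by norm_num) g3_11

theorem g2_11 : Good 2 11 := good_of_cert p2_11C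

theorem g9_11 : Good 9 11 := good_reverse (i := 2) (j := 11) (by norm_num) g2_11

theorem g1_11 : Good 1 11 := good_of_cert p1_11C

theorem g10_11 : Good 10 11 := good_reverse (i := 1) (j := 11) (by norm_num) g1_11

theorem g5_12 : Good 5 12 := good_of_cert p5_12C

theorem g7_12 : Good 7 12 := good_reverse (i := 5) (j := 12) (by norm_num) g5_12

theorem g1_12 : Good 1 12 := good_of_cert p1_12C

theorem g11_12 : Good 11 12 := good_reverse (i := 1) (j := 12) (by norm_num) g1_12

theorem g6_13 : Good 6 13 := good_of_cert p6_13C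

theorem g7_13 : Good 7 13 := good_reverse (i := 6) (j := 13) (by norm_num) g6_13

theorem g5_13 : Good 5 13 := good_of_cert p5_13C

theorem g8_13 : Good 8 13 := good_reverse (i := 5) (j := 13) (by norm_num) g5_13

theorem g4_13 : Good 4 13 := good_of_cert p4_13C

theorem g9_13 : Good 9 13 := good_reverse (i := 4) (j := 13) (by norm_num) g4_13

theorem g3_13 : Good 3 13 := good_of_cert p3_13C

theorem g10_13 : Good 10 13 := good_reverse (i := 3) (j := 13) (by norm_num) g3_13

theorem g2_13 : Good 2 13 := good_of_cert p2_13C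

theorem g11_13 : Good 11 13 := good_reverse (i := 2) (j := 13) (by norm_num) g2_13

theorem g1_13 : Good 1 13 := good_of_cert p1_13C

theorem g12_13 : Good 12 13 := good_reverse (i := 1) (j := 13) (by norm_num) g1_13

theorem g5_14 : Good 5 14 := good_of_cert p5_14C

theorem g9_14 : Good 9 14 := good_reverse (i := 5) (j := 14) (by norm_num) g5_14

theorem g3_14 : Good 3 14 := good_of_cert p3_14C

theorem g11_14 : Good 11 14 := good_reverse (i := 3) (j := 14) (by norm_num) g3_14

theorem g7_15 : Good 7 15 := good_of_cert p7_15C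

theorem g8_15 : Good 8 15 := good_reverse (i := 7) (j := 15) (by norm_num) g7_15

theorem g7_16 : Good 7 16 := good_of_cert p7_16C

theorem g9_16 : Good 9 16 := good_reverse (i := 7) (j := 16) (by norm_num) g7_16

theorem good_small {i j : ℕ} (hij : Nat.Coprime i j) (hlt : i < j) (hj : 6 ≤ j)
    (h1 : i + j < 26) (h2 : (j - i) + j < 26) : Good i j := by
  have hj' : j ≤ 16 := by omega
  interval_cases j <;> interval_cases i <;> first
    | exact g1_6
    | exact g5_6
    | exact g3_7
    | exact g4_7
    | exact g2_7
    | exact g5_7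
    | exact g1_7
    | exact g6_7
    | exact g3_8
    | exact g5_8
    | exact g1_8
    | exact g7_8
    | exact g4_9
    | exact g5_9
    | exact g2_9
    | exact g7_9
    | exact g1_9
    | exact g8_9
    | exact g3_10
    | exact g7_10
    | exact g1_10
    | exact g9_10
    | exact g5_11
    | exact g6_11
    | exact g4_11
    | exact g7_11
    | exact g3_11
    | exact g8_11
    | exact g2_11
    | exact g9_11
    | exact g1_11
    | exact g10_11
    | exact g5_12
    | exact g7_12
    | exact g1_12
    | exact g11_12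
    | exact g6_13
    | exact g7_13
    | exact g5_13
    | exact g8_13
    | exact g4_13
    | exact g9_13
    | exact g3_13
    | exact g10_13
    | exact g2_13
    | exact g11_13
    | exact g1_13
    | exact g12_13
    | exact g5_14
    | exact g9_14
    | exact g3_14
    | exact g11_14
    | exact g7_15
    | exact g8_15
    | exact g7_16
    | exact g9_16
    | (exfalso; revert hij; decide)
    | (exfalso; omega)

/-- Additive cubes are avoidable over `{0, i, j}` for all coprime `i < j` with `j ≥ 6`. -/
theorem good_all {i j : ℕ} (hij : Nat.Coprime i j) (hlt : i < j) (hj : 6 ≤ j) : Good i j := by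
  by_cases h1 : 26 ≤ i + j
  · exact good_big hij (by omega) h1
  · by_cases h2 : 26 ≤ (j - i) + j
    · have hc : Nat.Coprime (j - i) j := (Nat.coprime_self_sub_left hlt.le).mpr hij
      have h3 := good_reverse (i := j - i) (j := j) (Nat.sub_le j i) (good_big hc (by omega) h2)
      rwa [Nat.sub_sub_self hlt.le] at h3
    · exact good_small hij hlt hj (by omega) (by omega)

end Pool.Agent.Helper39_AddCubes
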