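import Pool.Agent.Helper39_AddCubes.Cert

/-!
The universal block substitution: blocks over three letters `a, b, c` whose letter counts lie on
the line `V + s (-2, 1, 1)`.  With `a ↦ 0`, `b ↦ i`, `c ↦ j` it gives a word without additive cubes
for all coprime `i, j` with `i + j` large.
-/

set_option autoImplicit false

namespace Pool.Agent.Helper39_AddCubes

/-- Code of a cut point: `K0 + L (T1 - T2) - k`. -/
def ucode (T1 T2 : ℕ → ℕ → ℕ) (L K0 s k : ℕ) : ℕ :=
  Nat.sub (Nat.add K0 (Nat.mul L (T1 s k))) (Nat.add (Nat.mul L (T2 s k)) k)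

/-- Certificate for the universal substitution; `T1`, `T2` count the letters `b`, `c`. -/
structure UCert (T1 T2 : ℕ → ℕ → ℕ) (K : List ℕ) (L e R K0 m : ℕ) (B : List ℕ) (M : ℕ) :
    Prop where
  pos : Nat.blt 0 L = true
  rng : K = List.range L
  w1 : okWords T1 K L (e + 1) 1 [0, 1] = true
  w2 : okWords T2 K L e 1 [0, 1] = true
  w3 : (allL S fun s => allL K fun k =>
    Nat.ble (Nat.add (Nat.sub (T1 s (Nat.add k 1)) (T1 s k))
      (Nat.sub (T2 s (Nat.add k 1)) (T2 s k))) 1) = true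
  cds : (allL S fun s => allL K fun k => and (tb M (ucode T1 T2 L K0 s k))
    (and (Nat.ble (Nat.add (Nat.mul L (T2 s k)) k) (Nat.add K0 (Nat.mul L (T1 s k))))
      (Nat.ble (ucode T1 T2 L K0 s k) R))) = true
  bd : Nat.blt R m = true
  msk : Nat.beq (mask B) M = true
  ap : okAP B M m = true
  inj : (allL K fun k => allL S fun s => allL S fun s' =>
    or (not (Nat.beq (ucode T1 T2 L K0 s k) (ucode T1 T2 L K0 s' k)))
      (or (Nat.beq (T1 s k) (T1 s' k))
        (Nat.beq (Nat.add (T1 s' k) (Nat.mul 1 s)) (Nat.add (T1 s k) (Nat.mul 1 s'))))) = true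

variable {T1 T2 : ℕ → ℕ → ℕ} {K : List ℕ} {L e R K0 m : ℕ} {B : List ℕ} {M : ℕ}

theorem tab_of_okWords {T : ℕ → ℕ → ℕ} {K : List ℕ} {L e c : ℕ} {A : List ℕ}
    (hK : K = List.range L) (h : okWords T K L e c A = true) {s : ℕ} (hs : s ∈ S) :
    Tab T L e c s ∧ ∀ k, k < L → T s (k + 1) - T s k ∈ A := by
  have h1 := allL_eq_true h hs
  rw [Bool.and_eq_true, Bool.and_eq_true] at h1
  obtain ⟨a1, a2, a3⟩ := h1
  have b1 : T s 0 = 0 := Nat.eq_of_beq_eq_true a1
  have b2 : T s L = e + c * s := Nat.eq_of_beq_eq_true a2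
  have b3 : ∀ k, k < L → T s k ≤ T s (k + 1) ∧ T s (k + 1) - T s k ∈ A := by
    intro k hk
    have h2 := allL_eq_true a3 (by rw [hK]; exact List.mem_range.mpr hk)
    rw [Bool.and_eq_true] at h2
    refine ⟨Nat.le_of_ble_eq_true h2.1, ?_⟩
    have h3 := h2.2
    rw [List.contains_iff_mem] at h3
    exact h3
  exact ⟨⟨b1, fun k hk => (b3 k hk).1, b2⟩, fun k hk => (b3 k hk).2⟩

theorem UCert.mem_K (h : UCert T1 T2 K L e R K0 m B M) {k : ℕ} (hk : k < L) : k ∈ K := by
  rw [h.rng]; exact List.mem_range.mpr hk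

theorem UCert.cds' (h : UCert T1 T2 K L e R K0 m B M) {s : ℕ} (hs : s ∈ S) {k : ℕ} (hk : k < L) :
    ucode T1 T2 L K0 s k ∈ B ∧ tb M (ucode T1 T2 L K0 s k) = true ∧
      (ucode T1 T2 L K0 s k : ℤ) = K0 + L * ((T1 s k : ℤ) - T2 s k) - k ∧
      ucode T1 T2 L K0 s k ≤ R := by
  have h1 := allL_eq_true (allL_eq_true h.cds hs) (h.mem_K hk)
  rw [Bool.and_eq_true, Bool.and_eq_true] at h1
  obtain ⟨h2, h4, h5⟩ := h1
  have h3 : mask B = M := Nat.eq_of_beq_eq_true h.msk
  have h6 : L * T2 s k + k ≤ K0 + L * T1 s k := Nat.le_of_ble_eq_true h4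
  have h7 : ucode T1 T2 L K0 s k = K0 + L * T1 s k - (L * T2 s k + k) := rfl
  refine ⟨?_, h2, ?_, Nat.le_of_ble_eq_true h5⟩
  · rw [← h3] at h2
    exact mem_of_tb_mask h2
  · rw [h7]
    push_cast [Nat.cast_sub h6]
    ring

theorem UCert.ap' (h : UCert T1 T2 K L e R K0 m B M) {g1 g2 : ℕ} (h1 : g1 ∈ B) (h2 : g2 ∈ B)
    (h3 : tb M ((2 * g2 + (m - g1)) % m) = true)
    (h4 : tb M ((3 * g2 + 2 * (m - g1)) % m) = true) : g1 = g2 := by
  have h0 := allL_eq_true (allL_eq_true h.ap h1) h2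
  have h5 : (Nat.beq g1 g2 || !(tb M ((2 * g2 + (m - g1)) % m) &&
    tb M ((3 * g2 + 2 * (m - g1)) % m))) = true := h0
  rw [h3, h4] at h5
  simp at h5
  exact h5

theorem UCert.inj' (h : UCert T1 T2 K L e R K0 m B M) {s s' : ℕ} (hs : s ∈ S) (hs' : s' ∈ S)
    {k : ℕ} (hk : k < L) (heq : ucode T1 T2 L K0 s k = ucode T1 T2 L K0 s' k) :
    T1 s k = T1 s' k ∨ T1 s' k + 1 * s = T1 s k + 1 * s' := by
  have h0 := allL_eq_true (allL_eq_true (allL_eq_true h.inj (h.mem_K hk)) hs) hs'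
  have h5 : (!(Nat.beq (ucode T1 T2 L K0 s k) (ucode T1 T2 L K0 s' k)) ||
    (Nat.beq (T1 s k) (T1 s' k) || Nat.beq (T1 s' k + 1 * s) (T1 s k + 1 * s'))) = true := h0
  rw [heq] at h5
  simp only [Nat.beq_refl, Bool.not_true, Bool.false_or, Bool.or_eq_true] at h5
  rcases h5 with h5 | h5
  · left; exact Nat.eq_of_beq_eq_true h5
  · right; exact Nat.eq_of_beq_eq_true h5

/-- The word over `{0, i, j}`. -/
def uword (T1 T2 : ℕ → ℕ → ℕ) (L i j : ℕ) (x : ℕ → ℕ) (n : ℕ) : ℕ :=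
  i * blk T1 L x n + j * blk T2 L x n

theorem ps_uword (T1 T2 : ℕ → ℕ → ℕ) (L i j : ℕ) (x : ℕ → ℕ) (n : ℕ) :
    ps (uword T1 T2 L i j x) n = i * ps (blk T1 L x) n + j * ps (blk T2 L x) n := by
  induction n with
  | zero => simp [ps_zero]
  | succ n ih => rw [ps_succ, ps_succ, ps_succ, ih]; unfold uword; ring

theorem UCert.letters (h : UCert T1 T2 K L e R K0 m B M) (x : ℕ → ℕ) (hx : ∀ n, x n ∈ S)
    (i j n : ℕ) : uword T1 T2 L i j x n = 0 ∨ uword T1 T2 L i j x n = i ∨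
      uword T1 T2 L i j x n = j := by
  have hL : 0 < L := by
    have := h.pos
    simpa [Nat.blt_eq] using this
  have hk : n % L < L := Nat.mod_lt n hL
  have a1 := (tab_of_okWords h.rng h.w1 (hx (n / L))).2 (n % L) hk
  have a2 := (tab_of_okWords h.rng h.w2 (hx (n / L))).2 (n % L) hk
  have h3 := allL_eq_true (allL_eq_true h.w3 (hx (n / L))) (h.mem_K hk)
  have a3 : T1 (x (n / L)) (n % L + 1) - T1 (x (n / L)) (n % L) +
    (T2 (x (n / L)) (n % L + 1) - T2 (x (n / L)) (n % L)) ≤ 1 := Nat.le_of_ble_eq_true h3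
  have b1 : blk T1 L x n + blk T2 L x n ≤ 1 := a3
  unfold uword
  have c1 : blk T1 L x n = 0 ∨ blk T1 L x n = 1 := by omega
  have c2 : blk T2 L x n = 0 ∨ blk T2 L x n = 1 := by omega
  rcases c1 with c1 | c1 <;> rcases c2 with c2 | c2
  · left; rw [c1, c2]; simp
  · right; right; rw [c1, c2]; simp
  · right; left; rw [c1, c2]; simp
  · omega

/-- A cube in the word over `{0, i, j}` comes from a cube in the original word. -/
theorem UCert.descend (h : UCert T1 T2 K L e R K0 m B M) (x : ℕ → ℕ) (hx : ∀ n, x n ∈ S)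
    {i j : ℕ} (hij : Nat.Coprime i j) (hj : 0 < j) (hbig : 2 * R < L * (i + j))
    {p N : ℕ} (hc : Cube (uword T1 T2 L i j x) p N) : ∃ q N', N = L * N' ∧ Cube x q N' := by
  have hL : 0 < L := by
    have := h.pos
    simpa [Nat.blt_eq] using this
  have hRm : R < m := by
    have := h.bd
    simpa [Nat.blt_eq] using this
  have hT1 : ∀ n, Tab T1 L (e + 1) 1 (x n) := fun n => (tab_of_okWords h.rng h.w1 (hx n)).1
  have hT2 : ∀ n, Tab T2 L e 1 (x n) := fun n => (tab_of_okWords h.rng h.w2 (hx n)).1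
  set P1 : ℕ → ℕ := ps (blk T1 L x) with hP1
  set P2 : ℕ → ℕ := ps (blk T2 L x) with hP2
  have hP1n : ∀ n, P1 n = (e + 1) * (n / L) + 1 * ps x (n / L) + T1 (x (n / L)) (n % L) := by
    intro n
    have h1 := ps_blk T1 hL (e + 1) 1 x hT1 (n / L) (n % L) (Nat.mod_lt n hL).le
    rw [Nat.div_add_mod] at h1
    exact h1
  have hP2n : ∀ n, P2 n = e * (n / L) + 1 * ps x (n / L) + T2 (x (n / L)) (n % L) := by
    intro n
    have h1 := ps_blk T2 hL e 1 x hT2 (n / L) (n % L) (Nat.mod_lt n hL).le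
    rw [Nat.div_add_mod] at h1
    exact h1
  set g : ℕ → ℕ := fun n => ucode T1 T2 L K0 (x (n / L)) (n % L) with hg
  have hgB : ∀ n, g n ∈ B ∧ tb M (g n) = true ∧
      (g n : ℤ) = K0 + L * ((T1 (x (n / L)) (n % L) : ℤ) - T2 (x (n / L)) (n % L)) - (n % L : ℕ) ∧
      g n ≤ R := fun n => h.cds' (hx _) (Nat.mod_lt n hL)
  have hgP : ∀ n, (g n : ℤ) = K0 + L * ((P1 n : ℤ) - P2 n) - n := by
    intro n
    rw [(hgB n).2.2.1, hP1n n, hP2n n]
    have e0 : ((L * (n / L) + n % L : ℕ) : ℤ) = (n : ℤ) := by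
      exact_mod_cast congrArg (Nat.cast (R := ℤ)) (Nat.div_add_mod n L)
    push_cast at e0 ⊢
    linear_combination -e0
  have hglt : ∀ n, g n < m := fun n => lt_of_le_of_lt (hgB n).2.2.2 hRm
  -- second differences
  have key : ∀ n N, ps (uword T1 T2 L i j x) n + ps (uword T1 T2 L i j x) (n + 2 * N) =
      2 * ps (uword T1 T2 L i j x) (n + N) →
      (P1 n : ℤ) - 2 * P1 (n + N) + P1 (n + 2 * N) = 0 ∧
      (g n : ℤ) - 2 * g (n + N) + g (n + 2 * N) = 0 := by
    intro n N hn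
    rw [ps_uword, ps_uword, ps_uword] at hn
    have hz : (i : ℤ) * ((P1 n : ℤ) - 2 * P1 (n + N) + P1 (n + 2 * N)) +
        (j : ℤ) * ((P2 n : ℤ) - 2 * P2 (n + N) + P2 (n + 2 * N)) = 0 := by
      have hn' : (((i * P1 n + j * P2 n + (i * P1 (n + 2 * N) + j * P2 (n + 2 * N))) : ℕ) : ℤ) =
          ((2 * (i * P1 (n + N) + j * P2 (n + N)) : ℕ) : ℤ) := by exact_mod_cast hn
      push_cast at hn'
      linarith
    set A1 : ℤ := (P1 n : ℤ) - 2 * P1 (n + N) + P1 (n + 2 * N) with hA1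
    set A2 : ℤ := (P2 n : ℤ) - 2 * P2 (n + N) + P2 (n + 2 * N) with hA2
    have hdvd : (j : ℤ) ∣ A1 := by
      have h1 : (j : ℤ) ∣ (i : ℤ) * A1 := ⟨-A2, by linarith⟩
      have h2 : IsCoprime (j : ℤ) (i : ℤ) := (Nat.isCoprime_iff_coprime.mpr hij).symm
      exact h2.dvd_of_dvd_mul_left h1
    obtain ⟨t, ht⟩ := hdvd
    have hjz : (j : ℤ) ≠ 0 := by exact_mod_cast hj.ne'
    have hA2t : A2 = -(i : ℤ) * t := by
      have : (j : ℤ) * ((i : ℤ) * t + A2) = 0 := by rw [ht] at hz; linarith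
      have := (mul_eq_zero.mp this).resolve_left hjz
      linarith
    have hgd : (g n : ℤ) - 2 * g (n + N) + g (n + 2 * N) = (L : ℤ) * ((i : ℤ) + j) * t := by
      rw [hgP, hgP, hgP]
      push_cast
      have : (L : ℤ) * (A1 - A2) = (L : ℤ) * ((i : ℤ) + j) * t := by rw [ht, hA2t]; ring
      rw [hA1, hA2] at this
      linarith
    have ht0 : t = 0 := by
      by_contra hne
      have r0 : (0 : ℤ) ≤ g n := by positivity
      have r1 : (0 : ℤ) ≤ g (n + N) := by positivity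
      have r2 : (0 : ℤ) ≤ g (n + 2 * N) := by positivity
      have r3 : (g n : ℤ) ≤ R := by exact_mod_cast (hgB n).2.2.2
      have r4 : (g (n + N) : ℤ) ≤ R := by exact_mod_cast (hgB (n + N)).2.2.2
      have r5 : (g (n + 2 * N) : ℤ) ≤ R := by exact_mod_cast (hgB (n + 2 * N)).2.2.2
      have hb : (2 * R : ℤ) < (L : ℤ) * ((i : ℤ) + j) := by exact_mod_cast hbig
      have hpos : (0 : ℤ) < (L : ℤ) * ((i : ℤ) + j) := by
        have : (0 : ℤ) ≤ (R : ℤ) := by positivity
        linarith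
      rcases lt_or_gt_of_ne hne with hlt | hgt
      · have : (L : ℤ) * ((i : ℤ) + j) * t ≤ -((L : ℤ) * ((i : ℤ) + j)) := by nlinarith
        linarith
      · have : (L : ℤ) * ((i : ℤ) + j) ≤ (L : ℤ) * ((i : ℤ) + j) * t := by nlinarith
        linarith
    constructor
    · rw [ht, ht0]; ring
    · rw [hgd, ht0]; ring
  have t1 : p + N + 2 * N = p + 3 * N := by ring
  have t2 : p + N + N = p + 2 * N := by ring
  obtain ⟨k1, k2⟩ := key p N hc.1
  obtain ⟨k3, k4⟩ := key (p + N) N (by rw [t1, t2]; exact hc.2)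
  rw [t1, t2] at k3 k4
  have s1 : g p + g (p + 2 * N) = 2 * g (p + N) := by
    have : (g p : ℤ) + g (p + 2 * N) = 2 * g (p + N) := by linarith
    exact_mod_cast this
  have s2 : g (p + N) + g (p + 3 * N) = 2 * g (p + 2 * N) := by
    have : (g (p + N) : ℤ) + g (p + 3 * N) = 2 * g (p + 2 * N) := by linarith
    exact_mod_cast this
  have b3 : (2 * g (p + N) + (m - g p)) % m = g (p + 2 * N) := by
    have : 2 * g (p + N) + (m - g p) = g (p + 2 * N) + m := by have := hglt p; omega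
    rw [this, Nat.add_mod_right, Nat.mod_eq_of_lt (hglt _)]
  have b4 : (3 * g (p + N) + 2 * (m - g p)) % m = g (p + 3 * N) := by
    have : 3 * g (p + N) + 2 * (m - g p) = g (p + 3 * N) + m * 2 := by
      have := hglt p; omega
    rw [this, Nat.add_mul_mod_self_left, Nat.mod_eq_of_lt (hglt _)]
  have g12 : g p = g (p + N) := h.ap' (hgB p).1 (hgB (p + N)).1
    (by rw [b3]; exact (hgB _).2.1) (by rw [b4]; exact (hgB _).2.1)
  have g13 : g (p + 2 * N) = g p := by omega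
  have g14 : g (p + 3 * N) = g p := by omega
  -- the code determines the position modulo `L`
  have hpos : ∀ n n', g n = g n' → n % L = n' % L := by
    intro n n' hnn
    have h1 : (L : ℤ) ∣ (n : ℤ) - n' := by
      refine ⟨((P1 n : ℤ) - P2 n) - ((P1 n' : ℤ) - P2 n'), ?_⟩
      have a1 := hgP n
      have a2 := hgP n'
      rw [hnn] at a1
      linarith
    have h2 : (n' : ℤ) ≡ n [ZMOD L] := (Int.modEq_iff_dvd).mpr h1
    have h3 : n' ≡ n [MOD L] := (Int.natCast_modEq_iff).mp h2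
    exact h3.symm
  have hk1 : p % L = (p + N) % L := hpos _ _ g12
  have hLN : L ∣ N := by
    have w : p + 0 ≡ p + N [MOD L] := by rw [Nat.add_zero]; exact hk1
    exact (Nat.modEq_zero_iff_dvd.mp (Nat.ModEq.add_left_cancel' p w).symm)
  obtain ⟨N', rfl⟩ := hLN
  have hq : ∀ i : ℕ, (p + i * (L * N')) / L = p / L + i * N' := by
    intro i
    have : p + i * (L * N') = p + L * (i * N') := by ring
    rw [this, Nat.add_mul_div_left _ _ hL]
  have hk : ∀ i : ℕ, (p + i * (L * N')) % L = p % L := by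
    intro i
    have : p + i * (L * N') = p + L * (i * N') := by ring
    rw [this, Nat.add_mul_mod_self_left]
  set k := p % L with hkdef
  set q := p / L with hqdef
  have hkL : k < L := Nat.mod_lt _ hL
  have hgi : ∀ i : ℕ, g (p + i * (L * N')) = ucode T1 T2 L K0 (x (q + i * N')) k := by
    intro i
    show ucode T1 T2 L K0 (x ((p + i * (L * N')) / L)) ((p + i * (L * N')) % L) = _
    rw [hq, hk]
  have hgall : ∀ i : Fin 4, g (p + (i : ℕ) * (L * N')) = g p := by
    intro i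
    fin_cases i
    · simp
    · simpa using g12.symm
    · simpa using g13
    · simpa using g14
  have hpair : ∀ i j : Fin 4,
      T1 (x (q + (i : ℕ) * N')) k = T1 (x (q + (j : ℕ) * N')) k ∨
      T1 (x (q + (j : ℕ) * N')) k + 1 * x (q + (i : ℕ) * N') =
        T1 (x (q + (i : ℕ) * N')) k + 1 * x (q + (j : ℕ) * N') := by
    intro i j
    have e1 := hgall i
    have e2 := hgall j
    rw [hgi] at e1 e2
    exact h.inj' (hx (q + (i : ℕ) * N')) (hx (q + (j : ℕ) * N')) hkL (e1.trans e2.symm)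
  have hpq : L * q + k = p := Nat.div_add_mod p L
  have hcube : Cube (blk T1 L x) p (L * N') := by
    constructor
    · have : (P1 p : ℤ) + P1 (p + 2 * (L * N')) = 2 * P1 (p + L * N') := by linarith
      exact_mod_cast this
    · have : (P1 (p + L * N') : ℤ) + P1 (p + 3 * (L * N')) = 2 * P1 (p + 2 * (L * N')) := by
        linarith
      exact_mod_cast this
  obtain ⟨q', hq'⟩ := finish hL one_pos x hT1 hkL hpair (by rw [hpq]; exact hcube)
  exact ⟨q', N', rfl, hq'⟩

end Pool.Agent.Helper39_AddCubes
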